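import Mathlib

/-! # The bit sequences -/

namespace Pool.Agent.H508T

open Classical in
/-- the paper folding sequence -/
noncomputable def pf (x : ℤ) : Bool := decide (∃ (e : ℕ) (r : ℤ), x = 2 ^ e * (4 * r + 3))

/-- the bit sequences of the lines of types `0`, `1` and `2` -/
noncomputable def bitK (e : ℕ) (x : ℤ) : Bool :=
  if e = 0 then decide (x % 2 = 1) else if e = 1 then pf x else false

theorem pf_aux (e e' : ℕ) (q r : ℤ) (h : (2 : ℤ) ^ e * (4 * q + 1) = 2 ^ e' * (4 * r + 3)) :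
    False := by
  rcases lt_trichotomy e e' with h1 | h1 | h1
  · obtain ⟨k, rfl⟩ := Nat.exists_eq_add_of_lt h1
    have h2 : (2 : ℤ) ^ e * (4 * q + 1) = 2 ^ e * (2 ^ k * 2 * (4 * r + 3)) := by
      rw [h]; ring
    have h3 := mul_left_cancel₀ (by positivity) h2
    have h4 : (4 * q + 1 : ℤ) = 2 * (2 ^ k * (4 * r + 3)) := by rw [h3]; ring
    generalize (2 ^ k * (4 * r + 3) : ℤ) = y at h4
    omega
  · subst h1
    have h3 := mul_left_cancel₀ (by positivity) h
    omega
  · obtain ⟨k, rfl⟩ := Nat.exists_eq_add_of_lt h1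
    have h2 : (2 : ℤ) ^ e' * (2 ^ k * 2 * (4 * q + 1)) = 2 ^ e' * (4 * r + 3) := by
      rw [← h]; ring
    have h3 := mul_left_cancel₀ (by positivity) h2
    have h4 : (2 * (2 ^ k * (4 * q + 1)) : ℤ) = 4 * r + 3 := by rw [← h3]; ring
    generalize (2 ^ k * (4 * q + 1) : ℤ) = y at h4
    omega

theorem pf_val (e : ℕ) (r : ℤ) : pf (2 ^ e * (1 + 2 * r)) = decide (r % 2 = 1) := by
  unfold pf
  rw [decide_eq_decide]
  constructor
  · rintro ⟨e', s, h⟩
    by_contra hr
    have h1 : r = 2 * (r / 2) := by omega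
    apply pf_aux e e' (r / 2) s
    rw [← h]
    have : (1 + 2 * r : ℤ) = 4 * (r / 2) + 1 := by omega
    rw [this]
  · intro hr
    refine ⟨e, r / 2, ?_⟩
    have : (1 + 2 * r : ℤ) = 4 * (r / 2) + 3 := by omega
    rw [this]

/-- The arithmetic core: no periodic pair of bit sequences fits the closings. -/
theorem arith (t t' : ℤ) (ht : 1 ≤ t) (a b : ℕ → ℤ → Bool)
    (per1 : ∀ e i, a e (i + 5 * t) = a e i) (per2 : ∀ e i, a e (i + t') = a e i)
    (hab : ∀ e, e < 2 → ∀ i j, ∃ k l : ℤ, a e i = bitK e (i - (5 * t * k + t' * l)) ∧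
      b e j = bitK e (j - (-t * k + 5 * t' * l))) : False := by
  -- first: both are even
  have par : ∀ i j, (a 0 i == b 0 j) = decide ((i + j) % 2 = 0) := by
    intro i j
    obtain ⟨k, l, h1, h2⟩ := hab 0 (by norm_num) i j
    rw [h1, h2]
    simp only [bitK, if_true]
    obtain ⟨x, hx⟩ : ∃ x, x = i - (5 * t * k + t' * l) := ⟨_, rfl⟩
    obtain ⟨y, hy⟩ : ∃ y, y = j - (-t * k + 5 * t' * l) := ⟨_, rfl⟩
    have hs : x + y = i + j - 2 * (2 * (t * k) + 3 * (t' * l)) := by rw [hx, hy]; ring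
    rw [← hx, ← hy]
    generalize (2 * (t * k) + 3 * (t' * l)) = u at hs
    rw [Bool.eq_iff_iff]
    simp only [beq_iff_eq, decide_eq_decide, decide_eq_true_eq]
    omega
  have ev1 : t % 2 = 0 := by
    have h1 := par 0 0
    have h2 := par (0 + 5 * t) 0
    rw [per1, h1] at h2
    rw [decide_eq_decide] at h2
    omega
  have ev2 : t' % 2 = 0 := by
    have h1 := par 0 0
    have h2 := par (0 + t') 0
    rw [per2, h1] at h2
    rw [decide_eq_decide] at h2
    omega
  -- second: infinite descent on the powers of two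
  have desc : ∀ e : ℕ, (2 : ℤ) ^ (e + 1) ∣ t ∧ (2 : ℤ) ^ (e + 1) ∣ t' := by
    intro e
    induction e with
    | zero => exact ⟨by omega, by omega⟩
    | succ e ih =>
      obtain ⟨⟨τ, hτ⟩, ⟨τ', hτ'⟩⟩ := ih
      have par1 : ∀ x : ℤ, (a 1 (2 ^ e * (1 + 2 * x)) == b 1 (2 ^ e)) = decide (x % 2 = 0) := by
        intro x
        obtain ⟨k, l, h1, h2⟩ := hab 1 (by norm_num) (2 ^ e * (1 + 2 * x)) (2 ^ e)
        rw [h1, h2]
        simp only [bitK, one_ne_zero, if_false, if_true]
        have e1 : (2 ^ e * (1 + 2 * x) - (5 * t * k + t' * l) : ℤ) =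
            2 ^ e * (1 + 2 * (x - (5 * τ * k + τ' * l))) := by
          rw [hτ, hτ', pow_succ]; ring
        have e2 : (2 ^ e - (-t * k + 5 * t' * l) : ℤ) =
            2 ^ e * (1 + 2 * (-(-τ * k + 5 * τ' * l))) := by
          rw [hτ, hτ', pow_succ]; ring
        rw [e1, e2, pf_val, pf_val]
        obtain ⟨u, hu⟩ : ∃ u, u = x - (5 * τ * k + τ' * l) := ⟨_, rfl⟩
        obtain ⟨v, hv⟩ : ∃ v, v = -(-τ * k + 5 * τ' * l) := ⟨_, rfl⟩
        have hs : u + v = x - 2 * (2 * (τ * k) + 3 * (τ' * l)) := by rw [hu, hv]; ring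
        rw [← hu, ← hv]
        generalize (2 * (τ * k) + 3 * (τ' * l)) = w at hs
        rw [Bool.eq_iff_iff]
        simp only [beq_iff_eq, decide_eq_decide, decide_eq_true_eq]
        omega
      have z0 := par1 0
      constructor
      · have z1 := par1 (5 * τ)
        have e1 : (2 ^ e * (1 + 2 * (5 * τ)) : ℤ) = 2 ^ e * (1 + 2 * 0) + 5 * t := by
          rw [hτ, pow_succ]; ring
        rw [e1, per1, z0, decide_eq_decide] at z1
        have : τ % 2 = 0 := by omega
        refine ⟨τ / 2, ?_⟩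
        rw [hτ, pow_succ (2 : ℤ) (e + 1), mul_assoc]
        congr 1
        omega
      · have z1 := par1 τ'
        have e1 : (2 ^ e * (1 + 2 * τ') : ℤ) = 2 ^ e * (1 + 2 * 0) + t' := by
          rw [hτ', pow_succ]; ring
        rw [e1, per2, z0, decide_eq_decide] at z1
        have : τ' % 2 = 0 := by omega
        refine ⟨τ' / 2, ?_⟩
        rw [hτ', pow_succ (2 : ℤ) (e + 1), mul_assoc]
        congr 1
        omega
  -- contradiction
  have h1 := (desc t.toNat).1
  have h2 := Int.le_of_dvd (by omega) h1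
  have h3 : (t.toNat : ℤ) < 2 ^ (t.toNat + 1) := by
    have : t.toNat < 2 ^ (t.toNat + 1) :=
      lt_trans (Nat.lt_succ_self _) (Nat.lt_two_pow_self)
    exact_mod_cast this
  have h4 : (t.toNat : ℤ) = t := Int.toNat_of_nonneg (by omega)
  omega

end Pool.Agent.H508T
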