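import Mathlib

/-! # The block and its rigidity -/

namespace Pool.Agent.H508T

/-- membership in the block: a square of side 166 with four unit bumps -/
def inC (x y : ℤ) : Prop :=
  (0 ≤ x ∧ x < 166 ∧ 0 ≤ y ∧ y < 166) ∨ (x = 166 ∧ y = 0) ∨ (x = 0 ∧ y = -1) ∨
    (x = -1 ∧ y = 165) ∨ (x = 165 ∧ y = 166)

/-- the block -/
noncomputable def C : Finset (ℤ × ℤ) :=
  (Finset.Ico 0 166 ×ˢ Finset.Ico 0 166) ∪
    ({((166 : ℤ), (0 : ℤ)), (0, -1), (-1, 165), (165, 166)} : Finset (ℤ × ℤ))

theorem mem_C (p : ℤ × ℤ) : p ∈ C ↔ inC p.1 p.2 := by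
  obtain ⟨x, y⟩ := p
  simp only [C, Finset.mem_union, Finset.mem_product, Finset.mem_Ico, Finset.mem_insert,
    Finset.mem_singleton, Prod.mk.injEq, inC]
  tauto

/-- the lattice of the blocks -/
def L (c : ℤ × ℤ) : ℤ × ℤ := (166 * c.1 - 2 * c.2, 2 * c.1 + 166 * c.2)

theorem inC_rot (x y : ℤ) : inC x y ↔ inC (165 - y) x := by
  unfold inC; omega

theorem inC_uniq (x y a b a' b' : ℤ)
    (h : inC (x - (166 * a - 2 * b)) (y - (2 * a + 166 * b)))
    (h' : inC (x - (166 * a' - 2 * b')) (y - (2 * a' + 166 * b'))) : a = a' ∧ b = b' := by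
  unfold inC at h h'
  rcases h with h | h | h | h | h <;> rcases h' with h' | h' | h' | h' | h' <;> omega

theorem inC_exists (x y : ℤ) : ∃ a b : ℤ, inC (x - (166 * a - 2 * b)) (y - (2 * a + 166 * b)) := by
  -- division by the lattice
  set a0 := (166 * x + 2 * y) / 27560 with ha0
  set b0 := (-2 * x + 166 * y) / 27560 with hb0
  have h1 := Int.emod_nonneg (166 * x + 2 * y) (show (27560 : ℤ) ≠ 0 by norm_num)
  have h2 := Int.emod_lt_of_pos (166 * x + 2 * y) (show (0 : ℤ) < 27560 by norm_num)
  have h3 := Int.emod_nonneg (-2 * x + 166 * y) (show (27560 : ℤ) ≠ 0 by norm_num)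
  have h4 := Int.emod_lt_of_pos (-2 * x + 166 * y) (show (0 : ℤ) < 27560 by norm_num)
  have h5 := Int.emod_add_mul_ediv (166 * x + 2 * y) 27560
  have h6 := Int.emod_add_mul_ediv (-2 * x + 166 * y) 27560
  set u := (166 * x + 2 * y) % 27560
  set v := (-2 * x + 166 * y) % 27560
  rw [← ha0] at h5
  rw [← hb0] at h6
  clear_value u v a0 b0
  -- the remainder
  obtain ⟨X, hX⟩ : ∃ X, X = x - (166 * a0 - 2 * b0) := ⟨_, rfl⟩
  obtain ⟨Y, hY⟩ : ∃ Y, Y = y - (2 * a0 + 166 * b0) := ⟨_, rfl⟩
  have e1 : 166 * X + 2 * Y = u := by omega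
  have e2 : -2 * X + 166 * Y = v := by omega
  have b1 : -1 ≤ X := by omega
  have b2 : X ≤ 165 := by omega
  have b3 : 0 ≤ Y := by omega
  have b4 : Y ≤ 167 := by omega
  clear h5 h6 ha0 hb0
  have key : ∃ i j : ℤ, inC (X - (166 * i - 2 * j)) (Y - (2 * i + 166 * j)) := by
    rcases lt_or_ge X 0 with hx | hx
    · rcases le_or_gt Y 164 with hy | hy
      · exact ⟨-1, 0, by unfold inC; omega⟩
      · rcases le_or_gt Y 165 with hy' | hy'
        · exact ⟨0, 0, by unfold inC; omega⟩
        · exact ⟨0, 1, by unfold inC; omega⟩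
    · rcases le_or_gt Y 165 with hy | hy
      · exact ⟨0, 0, by unfold inC; omega⟩
      · rcases le_or_gt X 163 with hx' | hx'
        · exact ⟨0, 1, by unfold inC; omega⟩
        · rcases le_or_gt Y 166 with hy' | hy'
          · rcases le_or_gt X 164 with hx'' | hx''
            · exact ⟨0, 1, by unfold inC; omega⟩
            · exact ⟨0, 0, by unfold inC; omega⟩
          · rcases le_or_gt X 164 with hx'' | hx''
            · exact ⟨1, 1, by unfold inC; omega⟩
            · exact ⟨1, 0, by unfold inC; omega⟩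
  obtain ⟨i, j, hij⟩ := key
  refine ⟨a0 + i, b0 + j, ?_⟩
  have ea : x - (166 * (a0 + i) - 2 * (b0 + j)) = X - (166 * i - 2 * j) := by rw [hX]; ring
  have eb : y - (2 * (a0 + i) + 166 * (b0 + j)) = Y - (2 * i + 166 * j) := by rw [hY]; ring
  rw [ea, eb]; exact hij

/-- `D` is the set of positions of a tiling of the plane by translates of the block -/
def Til (D : Set (ℤ × ℤ)) : Prop :=
  (∀ x y : ℤ, ∃ d ∈ D, inC (x - d.1) (y - d.2)) ∧
    ∀ x y : ℤ, ∀ d ∈ D, ∀ d' ∈ D, inC (x - d.1) (y - d.2) → inC (x - d'.1) (y - d'.2) → d = d'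

theorem Til.next {D : Set (ℤ × ℤ)} (hD : Til D) (d : ℤ × ℤ) (hd : d ∈ D) :
    (d.1 + 166, d.2 + 2) ∈ D := by
  obtain ⟨hex, huq⟩ := hD
  obtain ⟨p, q⟩ := d
  -- overlap principle
  have ov : ∀ p1 q1 p2 q2 : ℤ, (p1, q1) ∈ D → (p2, q2) ∈ D → (p1 ≠ p2 ∨ q1 ≠ q2) →
      ∀ x y : ℤ, inC (x - p1) (y - q1) → inC (x - p2) (y - q2) → False := by
    intro p1 q1 p2 q2 h1 h2 hne x y hx hy
    have := huq x y _ h1 _ h2 hx hy
    simp only [Prod.mk.injEq] at this
    omega
  obtain ⟨⟨p', q'⟩, hd', hc'⟩ := hex (p + 166) (q + 1)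
  simp only at hc' ⊢
  rcases hc' with h | h | h | h | h
  · -- the square of the new block
    exfalso
    by_cases hx : p + 166 = p'
    · by_cases hy : q + 1 = q'
      · exact ov p q p' q' hd hd' (by omega) (p + 166) q (by unfold inC; omega)
          (by unfold inC; omega)
      · exact ov p q p' q' hd hd' (by omega) (p + 166) q (by unfold inC; omega)
          (by unfold inC; omega)
    · by_cases hy : q + 1 = q'
      · exact ov p q p' q' hd hd' (by omega) (p + 165) (q + 1) (by unfold inC; omega)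
          (by unfold inC; omega)
      · exact ov p q p' q' hd hd' (by omega) (p + 165) q (by unfold inC; omega)
          (by unfold inC; omega)
  · exact (ov p q p' q' hd hd' (by omega) p (q + 1) (by unfold inC; omega)
      (by unfold inC; omega)).elim
  · have e1 : p + 166 = p' := by omega
    have e2 : q + 2 = q' := by omega
    rw [e1, e2]; exact hd'
  · -- the exceptional case
    have e1 : p' = p + 167 := by omega
    have e2 : q' = q - 164 := by omega
    subst e1; subst e2
    obtain ⟨⟨p2, q2⟩, hd2, hc2⟩ := hex (p + 166) (q + 2)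
    simp only at hc2
    rcases hc2 with h2 | h2 | h2 | h2 | h2
    · by_cases hx : p + 166 = p2
      · by_cases hy : q + 2 = q2
        · rw [hx, hy]; exact hd2
        · exact (ov (p + 167) (q - 164) p2 q2 hd' hd2 (by omega) (p + 166) (q + 1)
            (by unfold inC; omega) (by unfold inC; omega)).elim
      · exfalso
        rcases le_or_gt q2 q with hy | hy
        · exact ov p q p2 q2 hd hd2 (by omega) (p + 165) q (by unfold inC; omega)
            (by unfold inC; omega)
        · exact ov p q p2 q2 hd hd2 (by omega) (p + 165) q2 (by unfold inC; omega)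
            (by unfold inC; omega)
    · exact (ov p q p2 q2 hd hd2 (by omega) p (q + 2) (by unfold inC; omega)
        (by unfold inC; omega)).elim
    · -- the slot
      exfalso
      have e1 : p2 = p + 166 := by omega
      have e2 : q2 = q + 3 := by omega
      subst e1; subst e2
      obtain ⟨⟨p3, q3⟩, hd3, hc3⟩ := hex (p + 167) (q + 2)
      simp only at hc3
      rcases hc3 with h3 | h3 | h3 | h3 | h3
      · by_cases hy : q + 2 = q3
        · exact ov (p + 166) (q + 3) p3 q3 hd2 hd3 (by omega) (p + 167) (q + 3)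
            (by unfold inC; omega) (by unfold inC; omega)
        · exact ov (p + 167) (q - 164) p3 q3 hd' hd3 (by omega) (p + 167) (q + 1)
            (by unfold inC; omega) (by unfold inC; omega)
      · exact ov p q p3 q3 hd hd3 (by omega) (p + 1) (q + 2) (by unfold inC; omega)
          (by unfold inC; omega)
      · exact ov (p + 166) (q + 3) p3 q3 hd2 hd3 (by omega) (p + 167) (q + 3)
          (by unfold inC; omega) (by unfold inC; omega)
      · exact ov (p + 167) (q - 164) p3 q3 hd' hd3 (by omega) (p + 168) (q - 163)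
          (by unfold inC; omega) (by unfold inC; omega)
      · exact ov p q p3 q3 hd hd3 (by omega) (p + 2) q (by unfold inC; omega)
          (by unfold inC; omega)
    · exact (ov (p + 167) (q - 164) p2 q2 hd' hd2 (by omega) (p + 167) (q - 163)
        (by unfold inC; omega) (by unfold inC; omega)).elim
    · exact (ov p q p2 q2 hd hd2 (by omega) (p + 1) q (by unfold inC; omega)
        (by unfold inC; omega)).elim
  · exact (ov p q p' q' hd hd' (by omega) (p + 1) q (by unfold inC; omega)
      (by unfold inC; omega)).elim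

/-- quarter turn of a set of positions -/
def turn (D : Set (ℤ × ℤ)) : Set (ℤ × ℤ) := {d | (d.2, -d.1) ∈ D}

theorem Til.turn {D : Set (ℤ × ℤ)} (hD : Til D) : Til (turn D) := by
  obtain ⟨hex, huq⟩ := hD
  constructor
  · intro x y
    obtain ⟨⟨p, q⟩, hd, hc⟩ := hex y (165 - x)
    refine ⟨(-q, p), ?_, ?_⟩
    · show (p, - -q) ∈ D
      rw [neg_neg]; exact hd
    · simp only at hc ⊢
      rw [inC_rot] at hc
      have e : 165 - (165 - x - q) = x - -q := by ring
      rw [e] at hc; exact hc
  · rintro x y ⟨p, q⟩ hd ⟨p', q'⟩ hd' h h'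
    simp only at h h'
    have := huq y (165 - x) (q, -p) hd (q', -p') hd' (by
        simp only
        rw [inC_rot]
        have e : 165 - (165 - x - -p) = x - p := by ring
        rw [e]; exact h) (by
        simp only
        rw [inC_rot]
        have e : 165 - (165 - x - -p') = x - p' := by ring
        rw [e]; exact h')
    simp only [Prod.mk.injEq] at this ⊢
    omega

theorem Til.prev {D : Set (ℤ × ℤ)} (hD : Til D) (d : ℤ × ℤ) (hd : d ∈ D) :
    (d.1 - 166, d.2 - 2) ∈ D := by
  have h := hD.turn.turn.next (-d.1, -d.2) (by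
    show (- - d.1, - - d.2) ∈ D
    simpa using hd)
  change (-(-d.1 + 166), -(-d.2 + 2)) ∈ D at h
  have e : (d.1 - 166, d.2 - 2) = (-(-d.1 + 166), -(-d.2 + 2)) := by
    ext <;> simp only <;> ring
  rw [e]; exact h

theorem Til.down {D : Set (ℤ × ℤ)} (hD : Til D) (d : ℤ × ℤ) (hd : d ∈ D) :
    (d.1 + 2, d.2 - 166) ∈ D := by
  have h := hD.turn.next (-d.2, d.1) (by
    show (d.1, - - d.2) ∈ D
    rw [neg_neg]; exact hd)
  change (d.1 + 2, -(-d.2 + 166)) ∈ D at h
  have e : (d.1 + 2, d.2 - 166) = (d.1 + 2, -(-d.2 + 166)) := by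
    ext <;> simp only <;> ring
  rw [e]; exact h

theorem Til.up {D : Set (ℤ × ℤ)} (hD : Til D) (d : ℤ × ℤ) (hd : d ∈ D) :
    (d.1 - 2, d.2 + 166) ∈ D := by
  have h := hD.turn.prev (-d.2, d.1) (by
    show (d.1, - - d.2) ∈ D
    rw [neg_neg]; exact hd)
  change (d.1 - 2, -(-d.2 - 166)) ∈ D at h
  have e : (d.1 - 2, d.2 + 166) = (d.1 - 2, -(-d.2 - 166)) := by
    ext <;> simp only <;> ring
  rw [e]; exact h

theorem Til.full {D : Set (ℤ × ℤ)} (hD : Til D) (d : ℤ × ℤ) (hd : d ∈ D) (a b : ℤ) :
    (d.1 + (166 * a - 2 * b), d.2 + (2 * a + 166 * b)) ∈ D := by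
  have h1 : ∀ a : ℤ, (d.1 + 166 * a, d.2 + 2 * a) ∈ D := by
    intro a
    induction a using Int.induction_on with
    | zero => simpa using hd
    | succ n ih =>
      have := hD.next _ ih
      simp only at this
      convert this using 2 <;> ring
    | pred n ih =>
      have := hD.prev _ ih
      simp only at this
      convert this using 2 <;> ring
  induction b using Int.induction_on with
  | zero => simpa using h1 a
  | succ n ih =>
    have := hD.up _ ih
    simp only at this
    convert this using 2 <;> ring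
  | pred n ih =>
    have := hD.down _ ih
    simp only at this
    convert this using 2 <;> ring

/-- Rigidity: two positions of blocks in one tiling differ by a vector of the lattice. -/
theorem Til.rigid {D : Set (ℤ × ℤ)} (hD : Til D) (p q x y : ℤ) (hd : (p, q) ∈ D)
    (hd' : (p + x, q + y) ∈ D) : ∃ a b : ℤ, x = 166 * a - 2 * b ∧ y = 2 * a + 166 * b := by
  obtain ⟨a, b, hab⟩ := inC_exists x y
  have h := hD.full (p, q) hd a b
  simp only at h
  have := hD.2 (p + x) (q + y) _ hd' _ h (by
    simp only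
    have e1 : p + x - (p + x) = 0 := by ring
    have e2 : q + y - (q + y) = 0 := by ring
    rw [e1, e2]; unfold inC; omega) (by
    simp only
    have e1 : p + x - (p + (166 * a - 2 * b)) = x - (166 * a - 2 * b) := by ring
    have e2 : q + y - (q + (2 * a + 166 * b)) = y - (2 * a + 166 * b) := by ring
    rw [e1, e2]; exact hab)
  simp only [Prod.mk.injEq] at this
  exact ⟨a, b, by omega, by omega⟩

end Pool.Agent.H508T
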