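import Pool.Agent.H508T.Sites
import Pool.Agent.H508T.Arith

/-! # The site tiling cannot be closed -/

namespace Pool.Agent.H508T

/-- the vectors of the closing, in supersite coordinates -/
def gv (t t' : ℤ) (k : ℤ × ℤ) : ℤ × ℤ := (5 * t * k.1 + t' * k.2, -t * k.1 + 5 * t' * k.2)

/-- A closing of the site tiling: a set `A` of tiles whose translates cover every site once. -/
structure Closing (A : ℕ → ℤ × ℤ → Prop) (t t' : ℤ) : Prop where
  lt : ∀ n z, A n z → n < 53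
  ex : ∀ w : ℤ × ℤ, ∃ (k : ℤ × ℤ) (n : ℕ) (z : ℤ × ℤ) (c : ℤ × ℤ), A n z ∧ c ∈ cK bitK n z ∧
    w = sh c (z + gv t t' k)
  uq : ∀ (w k : ℤ × ℤ) (n : ℕ) (z c k' : ℤ × ℤ) (n' : ℕ) (z' c' : ℤ × ℤ),
    A n z → c ∈ cK bitK n z → w = sh c (z + gv t t' k) →
    A n' z' → c' ∈ cK bitK n' z' → w = sh c' (z' + gv t t' k') → k = k'

theorem Closing.node_ex {A : ℕ → ℤ × ℤ → Prop} {t t' : ℤ} (H : Closing A t t') (n : ℕ)
    (hn : n < 53) (z' : ℤ × ℤ) : ∃ k, A n (z' - gv t t' k) := by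
  obtain ⟨r, hr, c, hk⟩ := core_ex n hn
  obtain ⟨-, h2, h3⟩ := core_prop hr hk
  obtain ⟨k, n₂, z₂, c₂, hA, hc, hw⟩ := H.ex (sh c z')
  have hB := covB n₂ (H.lt _ _ hA) _ _ c₂ hc
  have e : res c₂ = r := by rw [← h2, ← res_sh c z', hw, res_sh]
  rw [e, hk] at hB
  obtain ⟨a, b⟩ := hB
  subst a; subst b
  have := sh_inj _ _ _ hw
  refine ⟨k, ?_⟩
  rw [this]; simpa using hA

theorem Closing.node_uq {A : ℕ → ℤ × ℤ → Prop} {t t' : ℤ} (H : Closing A t t') (n : ℕ)
    (hn : n < 53) (z' k k' : ℤ × ℤ) (h : A n (z' - gv t t' k)) (h' : A n (z' - gv t t' k')) :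
    k = k' := by
  obtain ⟨r, hr, c, hk⟩ := core_ex n hn
  obtain ⟨-, h2, h3⟩ := core_prop hr hk
  exact H.uq (sh c z') k n _ c k' n _ c h (h3 _ _) (by simp) h' (h3 _ _) (by simp)

theorem gv_add (t t' : ℤ) (k l : ℤ × ℤ) : gv t t' (k + l) = gv t t' k + gv t t' l := by
  ext <;> simp [gv] <;> ring

theorem no_closing (A : ℕ → ℤ × ℤ → Prop) (t t' : ℤ) (ht : 1 ≤ t) (H : Closing A t t') :
    False := by
  have hk : ∀ (n : ℕ) (z : ℤ × ℤ), ∃ k, n < 53 → A n (z - gv t t' k) := by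
    intro n z
    by_cases hn : n < 53
    · obtain ⟨k, hk⟩ := H.node_ex n hn z
      exact ⟨k, fun _ => hk⟩
    · exact ⟨0, fun h => absurd h hn⟩
  choose kk hkk using hk
  obtain ⟨vb, hvb⟩ : ∃ vb : ℕ → ℤ × ℤ → Bool, ∀ n z, vb n z =
    bitK (eL n) (z - gv t t' (kk n z)).1 := ⟨_, fun _ _ => rfl⟩
  obtain ⟨hb, hhb⟩ : ∃ hb : ℕ → ℤ × ℤ → Bool, ∀ n z, hb n z =
    bitK (fL n) (z - gv t t' (kk n z)).2 := ⟨_, fun _ _ => rfl⟩
  have kkuq : ∀ n < 53, ∀ z k, A n (z - gv t t' k) → kk n z = k := fun n hn z k h =>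
    H.node_uq n hn z _ _ (hkk n z hn) h
  have per : ∀ n < 53, ∀ z m, kk n (z + gv t t' m) = kk n z + m := by
    intro n hn z m
    apply kkuq n hn
    rw [gv_add]
    have : z + gv t t' m - (gv t t' (kk n z) + gv t t' m) = z - gv t t' (kk n z) := by abel
    rw [this]; exact hkk n z hn
  have pervb : ∀ n < 53, ∀ z m, vb n (z + gv t t' m) = vb n z := by
    intro n hn z m
    rw [hvb, hvb, per n hn, gv_add]
    have : z + gv t t' m - (gv t t' (kk n z) + gv t t' m) = z - gv t t' (kk n z) := by abel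
    rw [this]
  -- the ports
  have portV : ∀ r < 265, ∀ n₁ c₁ n₂ c₂ d, kind r = .vp n₁ c₁ n₂ c₂ d → ∀ z : ℤ × ℤ,
      vb n₁ z = vb n₂ (z.1, z.2 + d) := by
    intro r hr n₁ c₁ n₂ c₂ d hk z
    obtain ⟨h1, h2, h3, h4, h5, h6, h7⟩ := vp_prop hr hk
    have A1 := hkk n₁ z h1
    have A2 := hkk n₂ (z.1, z.2 + d) h2
    cases b1 : vb n₁ z <;> cases b2 : vb n₂ (z.1, z.2 + d)
    · rfl
    · exfalso
      obtain ⟨k, n, z₀, c, hA, hc, hw⟩ := H.ex (sh c₁ z)
      have hB := covB n (H.lt _ _ hA) _ _ c hc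
      have e : res c = r := by rw [← h3, ← res_sh c₁ z, hw, res_sh]
      rw [e, hk] at hB
      rcases hB with ⟨a, b, u⟩ | ⟨a, b, u⟩
      · subst a; subst b
        have hz := sh_inj _ _ _ hw
        have : kk n₁ z = k := kkuq _ h1 _ _ (by rw [hz]; simpa using hA)
        rw [hvb, this, hz] at b1
        simp only [add_sub_cancel_right] at b1
        rw [u] at b1
        exact Bool.noConfusion b1
      · subst a; subst b
        rw [h5] at hw
        have hz := sh_inj _ _ _ hw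
        have : kk n₂ (z.1, z.2 + d) = k := kkuq _ h2 _ _ (by rw [hz]; simpa using hA)
        rw [hvb, this, hz] at b2
        simp only [add_sub_cancel_right] at b2
        rw [u] at b2
        exact Bool.noConfusion b2
    · exfalso
      rw [hvb] at b1 b2
      have hk' : kk n₁ z = kk n₂ (z.1, z.2 + d) := by
        refine H.uq (sh c₁ z) _ n₁ _ c₁ _ n₂ _ c₂ A1 ?_ (by simp) A2 ?_ (by simp; exact h5 z)
        · unfold cK; rw [b1]; exact h6 _
        · unfold cK; rw [b2]; exact h7 _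
      rw [← hk', ← h4] at b2
      have : (((z.1, z.2 + d) : ℤ × ℤ) - gv t t' (kk n₁ z)).1 = (z - gv t t' (kk n₁ z)).1 := rfl
      rw [this, b1] at b2
      exact Bool.noConfusion b2
    · rfl
  have portH : ∀ r < 265, ∀ n₁ c₁ n₂ c₂ d, kind r = .hp n₁ c₁ n₂ c₂ d → ∀ z : ℤ × ℤ,
      hb n₁ z = hb n₂ (z.1 + d, z.2) := by
    intro r hr n₁ c₁ n₂ c₂ d hk z
    obtain ⟨h1, h2, h3, h4, h5, h6, h7⟩ := hp_prop hr hk
    have A1 := hkk n₁ z h1
    have A2 := hkk n₂ (z.1 + d, z.2) h2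
    cases b1 : hb n₁ z <;> cases b2 : hb n₂ (z.1 + d, z.2)
    · rfl
    · exfalso
      obtain ⟨k, n, z₀, c, hA, hc, hw⟩ := H.ex (sh c₁ z)
      have hB := covB n (H.lt _ _ hA) _ _ c hc
      have e : res c = r := by rw [← h3, ← res_sh c₁ z, hw, res_sh]
      rw [e, hk] at hB
      rcases hB with ⟨a, b, u⟩ | ⟨a, b, u⟩
      · subst a; subst b
        have hz := sh_inj _ _ _ hw
        have : kk n₁ z = k := kkuq _ h1 _ _ (by rw [hz]; simpa using hA)
        rw [hhb, this, hz] at b1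
        simp only [add_sub_cancel_right] at b1
        rw [u] at b1
        exact Bool.noConfusion b1
      · subst a; subst b
        rw [h5] at hw
        have hz := sh_inj _ _ _ hw
        have : kk n₂ (z.1 + d, z.2) = k := kkuq _ h2 _ _ (by rw [hz]; simpa using hA)
        rw [hhb, this, hz] at b2
        simp only [add_sub_cancel_right] at b2
        rw [u] at b2
        exact Bool.noConfusion b2
    · exfalso
      rw [hhb] at b1 b2
      have hk' : kk n₁ z = kk n₂ (z.1 + d, z.2) := by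
        refine H.uq (sh c₁ z) _ n₁ _ c₁ _ n₂ _ c₂ A1 ?_ (by simp) A2 ?_ (by simp; exact h5 z)
        · unfold cK; rw [b1]; exact h6 _
        · unfold cK; rw [b2]; exact h7 _
      rw [← hk', ← h4] at b2
      have : (((z.1 + d, z.2) : ℤ × ℤ) - gv t t' (kk n₁ z)).2 = (z - gv t t' (kk n₁ z)).2 := rfl
      rw [this, b1] at b2
      exact Bool.noConfusion b2
    · rfl
  -- the lines
  have V0 : ∀ z : ℤ × ℤ, vb 0 z = vb 0 (z.1, z.2 + 1) := by
    intro z
    have s0 := portV 82 (by norm_num) 0 (-1, 1) 1 (-1, 1) 0 rfl z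
    have s1 := portV 247 (by norm_num) 1 (-2, 3) 2 (-2, 3) 0 rfl z
    have s2 := portV 147 (by norm_num) 2 (-3, 5) 21 (-3, 5) 0 rfl z
    have s3 := portV 48 (by norm_num) 21 (-3, 7) 22 (-3, 7) 0 rfl z
    have s4 := portV 32 (by norm_num) 22 (-3, 10) 23 (-3, 10) 0 rfl z
    have s5 := portV 17 (by norm_num) 23 (-2, 13) 24 (-2, 13) 0 rfl z
    have s6 := portV 182 (by norm_num) 24 (-3, 15) 0 (0, -1) 1 rfl z
    simp only [add_zero] at s0 s1 s2 s3 s4 s5 s6
    rw [s0, s1, s2, s3, s4, s5, s6]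
  have V1 : ∀ z : ℤ × ℤ, vb 4 z = vb 4 (z.1, z.2 + 1) := by
    intro z
    have s0 := portV 67 (by norm_num) 4 (0, 4) 5 (0, 4) 0 rfl z
    have s1 := portV 232 (by norm_num) 5 (-1, 6) 25 (-1, 6) 0 rfl z
    have s2 := portV 133 (by norm_num) 25 (-1, 8) 26 (-1, 8) 0 rfl z
    have s3 := portV 117 (by norm_num) 26 (-1, 11) 27 (-1, 11) 0 rfl z
    have s4 := portV 18 (by norm_num) 27 (-1, 13) 28 (-1, 13) 0 rfl z
    have s5 := portV 2 (by norm_num) 28 (-1, 16) 3 (2, 0) 1 rfl z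
    have s6 := portV 167 (by norm_num) 3 (1, 2) 4 (1, 2) 0 rfl (z.1, z.2 + 1)
    simp only [add_zero] at s0 s1 s2 s3 s4 s5 s6
    rw [s0, s1, s2, s3, s4, s5, s6]
  have H0 : ∀ z : ℤ × ℤ, hb 0 z = hb 0 (z.1 + 1, z.2) := by
    intro z
    have s0 := portH 1 (by norm_num) 0 (1, 0) 3 (1, 0) 0 rfl z
    have s1 := portH 86 (by norm_num) 3 (3, 1) 6 (3, 1) 0 rfl z
    have s2 := portH 171 (by norm_num) 6 (5, 2) 9 (5, 2) 0 rfl z
    have s3 := portH 174 (by norm_num) 9 (8, 2) 10 (8, 2) 0 rfl z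
    have s4 := portH 176 (by norm_num) 10 (10, 2) 11 (10, 2) 0 rfl z
    have s5 := portH 179 (by norm_num) 11 (13, 2) 12 (13, 2) 0 rfl z
    have s6 := portH 181 (by norm_num) 12 (15, 2) 0 (-1, -1) 1 rfl z
    simp only [add_zero] at s0 s1 s2 s3 s4 s5 s6
    rw [s0, s1, s2, s3, s4, s5, s6]
  have H1 : ∀ z : ℤ × ℤ, hb 4 z = hb 4 (z.1 + 1, z.2) := by
    intro z
    have s0 := portH 69 (by norm_num) 4 (2, 4) 7 (2, 4) 0 rfl z
    have s1 := portH 71 (by norm_num) 7 (4, 4) 13 (4, 4) 0 rfl z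
    have s2 := portH 74 (by norm_num) 13 (7, 4) 14 (7, 4) 0 rfl z
    have s3 := portH 76 (by norm_num) 14 (9, 4) 15 (9, 4) 0 rfl z
    have s4 := portH 79 (by norm_num) 15 (12, 4) 16 (12, 4) 0 rfl z
    have s5 := portH 81 (by norm_num) 16 (14, 4) 1 (-2, 1) 1 rfl z
    have s6 := portH 166 (by norm_num) 1 (0, 2) 4 (0, 2) 0 rfl (z.1 + 1, z.2)
    simp only [add_zero] at s0 s1 s2 s3 s4 s5 s6
    rw [s0, s1, s2, s3, s4, s5, s6]
  have Vc : ∀ n, (∀ z : ℤ × ℤ, vb n z = vb n (z.1, z.2 + 1)) → ∀ i j : ℤ,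
      vb n (i, j) = vb n (i, 0) := by
    intro n h i j
    induction j using Int.induction_on with
    | zero => rfl
    | succ m ih => rw [← ih]; exact (h (i, m)).symm
    | pred m ih =>
      rw [← ih, h (i, -m - 1)]
      simp
  have Hc : ∀ n, (∀ z : ℤ × ℤ, hb n z = hb n (z.1 + 1, z.2)) → ∀ i j : ℤ,
      hb n (i, j) = hb n (0, j) := by
    intro n h i j
    induction i using Int.induction_on with
    | zero => rfl
    | succ m ih => rw [← ih]; exact (h (m, j)).symm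
    | pred m ih =>
      rw [← ih, h (-m - 1, j)]
      simp
  have V0c := Vc 0 V0
  have V1c := Vc 4 V1
  have H0c := Hc 0 H0
  have H1c := Hc 4 H1
  refine arith t t' ht (fun e i => if e = 0 then vb 0 (i, 0) else vb 4 (i, 0))
    (fun e j => if e = 0 then hb 0 (0, j) else hb 4 (0, j)) ?_ ?_ ?_
  · intro e i
    have p0 := pervb 0 (by norm_num) (i, 0) (1, 0)
    have p1 := pervb 4 (by norm_num) (i, 0) (1, 0)
    have hz : ((i, 0) : ℤ × ℤ) + gv t t' (1, 0) = (i + 5 * t, -t) := by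
      ext <;> simp [gv]
    rw [hz] at p0 p1
    by_cases he : e = 0
    · simp only [he, if_true]
      rw [← V0c, p0]
    · simp only [he, if_false]
      rw [← V1c, p1]
  · intro e i
    have p0 := pervb 0 (by norm_num) (i, 0) (0, 1)
    have p1 := pervb 4 (by norm_num) (i, 0) (0, 1)
    have hz : ((i, 0) : ℤ × ℤ) + gv t t' (0, 1) = (i + t', 5 * t') := by
      ext <;> simp [gv]
    rw [hz] at p0 p1
    by_cases he : e = 0
    · simp only [he, if_true]
      rw [← V0c, p0]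
    · simp only [he, if_false]
      rw [← V1c, p1]
  · intro e he i j
    have hcase : e = 0 ∨ e = 1 := by omega
    rcases hcase with rfl | rfl
    · refine ⟨(kk 0 (i, j)).1, (kk 0 (i, j)).2, ?_, ?_⟩
      · simp only [if_true]
        rw [← V0c i j, hvb]; rfl
      · simp only [if_true]
        rw [← H0c i j, hhb]; rfl
    · refine ⟨(kk 4 (i, j)).1, (kk 4 (i, j)).2, ?_, ?_⟩
      · simp only [one_ne_zero, if_false]
        rw [← V1c i j, hvb]; rfl
      · simp only [one_ne_zero, if_false]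
        rw [← H1c i j, hhb]; rfl

end Pool.Agent.H508T
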