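import Pool.Agent.H508T.Table

/-! # Consequences of the table -/

namespace Pool.Agent.H508T

/-- the site `c` moved to the supersite `z` -/
def sh (c z : ℤ × ℤ) : ℤ × ℤ := (c.1 + (16 * z.1 - 3 * z.2), c.2 + (3 * z.1 + 16 * z.2))

theorem sh_inj (c z z' : ℤ × ℤ) (h : sh c z = sh c z') : z = z' := by
  simp only [sh, Prod.mk.injEq] at h
  ext <;> omega

theorem res_eq_iff (c c' : ℤ × ℤ) : res c = res c' ↔ (265 : ℤ) ∣ (c.1 + 83 * c.2) - (c'.1 + 83 * c'.2) := by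
  unfold res
  omega

theorem res_lt (c : ℤ × ℤ) : res c < 265 := by
  unfold res
  omega

theorem res_sh (c z : ℤ × ℤ) : res (sh c z) = res c := by
  rw [res_eq_iff]
  refine ⟨z.1 + 5 * z.2, ?_⟩
  simp only [sh]; ring

theorem exists_sh (w c : ℤ × ℤ) (h : res c = res w) : ∃ z, w = sh c z := by
  rw [eq_comm, res_eq_iff] at h
  obtain ⟨k, hk⟩ := h
  refine ⟨(16 * k - 5 * (w.2 - c.2), (w.2 - c.2) - 3 * k), ?_⟩
  ext
  · simp only [sh]; linarith
  · simp only [sh]; ring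

/-- node `n` covers the site `c` when its bits are `v`, `h` -/
def Cov : Kind → ℕ → ℤ × ℤ → Bool → Bool → Prop
  | .core n' c', n, c, _, _ => n' = n ∧ c' = c
  | .vp n₁ c₁ n₂ c₂ _, n, c, v, _ => (n₁ = n ∧ c₁ = c ∧ v = true) ∨ (n₂ = n ∧ c₂ = c ∧ v = false)
  | .hp n₁ c₁ n₂ c₂ _, n, c, _, h => (n₁ = n ∧ c₁ = c ∧ h = true) ∨ (n₂ = n ∧ c₂ = c ∧ h = false)

theorem covB (n : ℕ) (hn : n < 53) (v h : Bool) (c : ℤ × ℤ) (hc : c ∈ cl n v h) :
    Cov (kind (res c)) n c v h := by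
  have H := chkB_true
  unfold chkB at H
  rw [List.all_eq_true] at H
  have H1 := H n (List.mem_range.mpr hn)
  rw [List.all_eq_true] at H1
  have H2 := H1 v (by cases v <;> simp)
  rw [List.all_eq_true] at H2
  have H3 := H2 h (by cases h <;> simp)
  rw [List.all_eq_true] at H3
  have H4 := H3 c hc
  revert H4
  cases kind (res c) with
  | core n' c' =>
    simp only [Cov, Bool.and_eq_true, beq_iff_eq]
    exact id
  | vp n₁ c₁ n₂ c₂ d =>
    simp only [Cov, Bool.and_eq_true, Bool.or_eq_true, beq_iff_eq, Bool.not_eq_true']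
    rintro (⟨⟨a, b⟩, e⟩ | ⟨⟨a, b⟩, e⟩)
    · exact Or.inl ⟨a, b, e⟩
    · exact Or.inr ⟨a, b, e⟩
  | hp n₁ c₁ n₂ c₂ d =>
    simp only [Cov, Bool.and_eq_true, Bool.or_eq_true, beq_iff_eq, Bool.not_eq_true']
    rintro (⟨⟨a, b⟩, e⟩ | ⟨⟨a, b⟩, e⟩)
    · exact Or.inl ⟨a, b, e⟩
    · exact Or.inr ⟨a, b, e⟩

theorem chkC_at (r : ℕ) (hr : r < 265) :
    (match kind r with
      | .core n c => decide (n < 53) && (res c == r) &&
          (cl n false false).contains c && (cl n false true).contains c &&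
          (cl n true false).contains c && (cl n true true).contains c
      | .vp n₁ c₁ n₂ c₂ d => decide (n₁ < 53) && decide (n₂ < 53) && (res c₁ == r) &&
          (c₁ == (c₂.1 + (al (0, d)).1, c₂.2 + (al (0, d)).2)) && (eL n₁ == eL n₂) &&
          (cl n₁ true false).contains c₁ && (cl n₁ true true).contains c₁ &&
          (cl n₂ false false).contains c₂ && (cl n₂ false true).contains c₂
      | .hp n₁ c₁ n₂ c₂ d => decide (n₁ < 53) && decide (n₂ < 53) && (res c₁ == r) &&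
          (c₁ == (c₂.1 + (al (d, 0)).1, c₂.2 + (al (d, 0)).2)) && (fL n₁ == fL n₂) &&
          (cl n₁ false true).contains c₁ && (cl n₁ true true).contains c₁ &&
          (cl n₂ false false).contains c₂ && (cl n₂ true false).contains c₂) = true := by
  have H := chkC_true
  unfold chkC at H
  rw [List.all_eq_true] at H
  exact H r (List.mem_range.mpr hr)

theorem core_prop {r n : ℕ} {c : ℤ × ℤ} (hr : r < 265) (hk : kind r = .core n c) :
    n < 53 ∧ res c = r ∧ ∀ v h, c ∈ cl n v h := by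
  have H := chkC_at r hr
  rw [hk] at H
  simp only [Bool.and_eq_true, decide_eq_true_eq, beq_iff_eq, List.contains_iff_mem] at H
  obtain ⟨⟨⟨⟨⟨a, b⟩, c1⟩, c2⟩, c3⟩, c4⟩ := H
  refine ⟨a, b, ?_⟩
  intro v h
  cases v <;> cases h <;> assumption

theorem vp_prop {r n₁ n₂ : ℕ} {c₁ c₂ : ℤ × ℤ} {d : ℤ} (hr : r < 265)
    (hk : kind r = .vp n₁ c₁ n₂ c₂ d) :
    n₁ < 53 ∧ n₂ < 53 ∧ res c₁ = r ∧ eL n₁ = eL n₂ ∧
      (∀ z : ℤ × ℤ, sh c₁ z = sh c₂ (z.1, z.2 + d)) ∧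
      (∀ h, c₁ ∈ cl n₁ true h) ∧ (∀ h, c₂ ∈ cl n₂ false h) := by
  have H := chkC_at r hr
  rw [hk] at H
  simp only [Bool.and_eq_true, decide_eq_true_eq, beq_iff_eq, List.contains_iff_mem] at H
  obtain ⟨⟨⟨⟨⟨⟨⟨⟨a, b⟩, c⟩, e⟩, f⟩, g1⟩, g2⟩, g3⟩, g4⟩ := H
  refine ⟨a, b, c, f, ?_, ?_, ?_⟩
  · intro z
    rw [e]
    simp only [sh, al]
    ext <;> simp only <;> ring
  · intro h; cases h <;> assumption
  · intro h; cases h <;> assumption

theorem hp_prop {r n₁ n₂ : ℕ} {c₁ c₂ : ℤ × ℤ} {d : ℤ} (hr : r < 265)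
    (hk : kind r = .hp n₁ c₁ n₂ c₂ d) :
    n₁ < 53 ∧ n₂ < 53 ∧ res c₁ = r ∧ fL n₁ = fL n₂ ∧
      (∀ z : ℤ × ℤ, sh c₁ z = sh c₂ (z.1 + d, z.2)) ∧
      (∀ v, c₁ ∈ cl n₁ v true) ∧ (∀ v, c₂ ∈ cl n₂ v false) := by
  have H := chkC_at r hr
  rw [hk] at H
  simp only [Bool.and_eq_true, decide_eq_true_eq, beq_iff_eq, List.contains_iff_mem] at H
  obtain ⟨⟨⟨⟨⟨⟨⟨⟨a, b⟩, c⟩, e⟩, f⟩, g1⟩, g2⟩, g3⟩, g4⟩ := H
  refine ⟨a, b, c, f, ?_, ?_, ?_⟩
  · intro z
    rw [e]
    simp only [sh, al]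
    ext <;> simp only <;> ring
  · intro v; cases v <;> assumption
  · intro v; cases v <;> assumption

theorem core_ex (n : ℕ) (hn : n < 53) : ∃ r < 265, ∃ c, kind r = .core n c := by
  have H := chkE_true
  unfold chkE at H
  rw [List.all_eq_true] at H
  have H1 := H n (List.mem_range.mpr hn)
  revert H1
  cases hk : kind (coreTab.getD n 0) with
  | core n' c =>
    intro H1
    simp only [beq_iff_eq] at H1
    subst H1
    by_cases hr : coreTab.getD n' 0 < 265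
    · exact ⟨_, hr, c, hk⟩
    · exfalso
      -- the table has only residues below 265
      have : ∀ x ∈ coreTab, x < 265 := by decide
      have hlen : n' < coreTab.length := by
        have : coreTab.length = 53 := by decide
        omega
      apply hr
      rw [List.getD_eq_getElem _ _ hlen]
      exact this _ (List.getElem_mem hlen)
  | vp _ _ _ _ _ => intro H1; simp at H1
  | hp _ _ _ _ _ => intro H1; simp at H1

variable (K : ℕ → ℤ → Bool)

/-- the sites of node `n` at the supersite `z`, before moving, for the bit lines `K` -/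
def cK (n : ℕ) (z : ℤ × ℤ) : List (ℤ × ℤ) := cl n (K (eL n) z.1) (K (fL n) z.2)

theorem site_ex (w : ℤ × ℤ) : ∃ n < 53, ∃ z, ∃ c ∈ cK K n z, w = sh c z := by
  have hr := res_lt w
  cases hk : kind (res w) with
  | core n c =>
    obtain ⟨h1, h2, h3⟩ := core_prop hr hk
    obtain ⟨z, hz⟩ := exists_sh w c h2
    exact ⟨n, h1, z, c, h3 _ _, hz⟩
  | vp n₁ c₁ n₂ c₂ d =>
    obtain ⟨h1, h2, h3, h4, h5, h6, h7⟩ := vp_prop hr hk
    obtain ⟨z, hz⟩ := exists_sh w c₁ h3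
    cases hb : K (eL n₁) z.1 with
    | true => exact ⟨n₁, h1, z, c₁, by unfold cK; rw [hb]; exact h6 _, hz⟩
    | false =>
      refine ⟨n₂, h2, (z.1, z.2 + d), c₂, ?_, by rw [hz]; exact h5 z⟩
      unfold cK; simp only; rw [← h4, hb]; exact h7 _
  | hp n₁ c₁ n₂ c₂ d =>
    obtain ⟨h1, h2, h3, h4, h5, h6, h7⟩ := hp_prop hr hk
    obtain ⟨z, hz⟩ := exists_sh w c₁ h3
    cases hb : K (fL n₁) z.2 with
    | true => exact ⟨n₁, h1, z, c₁, by unfold cK; rw [hb]; exact h6 _, hz⟩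
    | false =>
      refine ⟨n₂, h2, (z.1 + d, z.2), c₂, ?_, by rw [hz]; exact h5 z⟩
      unfold cK; simp only; rw [← h4, hb]; exact h7 _

theorem site_uq (n n' : ℕ) (hn : n < 53) (hn' : n' < 53) (z z' c c' : ℤ × ℤ)
    (hc : c ∈ cK K n z) (hc' : c' ∈ cK K n' z') (h : sh c z = sh c' z') : n = n' ∧ z = z' := by
  have e : res c = res c' := by rw [← res_sh c z, h, res_sh]
  have hr := res_lt c
  have h1 := covB n hn _ _ c hc
  have h2 := covB n' hn' _ _ c' hc'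
  rw [← e] at h2
  cases hk : kind (res c) with
  | core n₀ c₀ =>
    rw [hk] at h1 h2
    obtain ⟨a, b⟩ := h1
    obtain ⟨a', b'⟩ := h2
    rw [← b, ← b'] at h
    exact ⟨by rw [← a, ← a'], sh_inj _ _ _ h⟩
  | vp n₁ c₁ n₂ c₂ d =>
    obtain ⟨_, _, _, h4, h5, _, _⟩ := vp_prop hr hk
    rw [hk] at h1 h2
    rcases h1 with ⟨a, b, u⟩ | ⟨a, b, u⟩ <;> rcases h2 with ⟨a', b', u'⟩ | ⟨a', b', u'⟩
    · rw [← b, ← b'] at h
      exact ⟨by rw [← a, ← a'], sh_inj _ _ _ h⟩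
    · exfalso
      rw [← b, ← b', h5 z] at h
      have := sh_inj _ _ _ h
      rw [← this, ← a', ← h4, a, u] at u'
      exact Bool.noConfusion u'
    · exfalso
      rw [← b, ← b', h5 z'] at h
      have := sh_inj _ _ _ h
      rw [this, ← a, ← h4, a', u'] at u
      exact Bool.noConfusion u
    · rw [← b, ← b'] at h
      exact ⟨by rw [← a, ← a'], sh_inj _ _ _ h⟩
  | hp n₁ c₁ n₂ c₂ d =>
    obtain ⟨_, _, _, h4, h5, _, _⟩ := hp_prop hr hk
    rw [hk] at h1 h2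
    rcases h1 with ⟨a, b, u⟩ | ⟨a, b, u⟩ <;> rcases h2 with ⟨a', b', u'⟩ | ⟨a', b', u'⟩
    · rw [← b, ← b'] at h
      exact ⟨by rw [← a, ← a'], sh_inj _ _ _ h⟩
    · exfalso
      rw [← b, ← b', h5 z] at h
      have := sh_inj _ _ _ h
      rw [← this, ← a', ← h4, a, u] at u'
      exact Bool.noConfusion u'
    · exfalso
      rw [← b, ← b', h5 z'] at h
      have := sh_inj _ _ _ h
      rw [this, ← a, ← h4, a', u'] at u
      exact Bool.noConfusion u
    · rw [← b, ← b'] at h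
      exact ⟨by rw [← a, ← a'], sh_inj _ _ _ h⟩

end Pool.Agent.H508T
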