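import Mathlib

/-! # The table of the site tiling -/

namespace Pool.Agent.H508T

/-- quarter turns about the origin -/
def rot : ℕ → ℤ × ℤ → ℤ × ℤ
  | 0, p => p
  | 1, p => (-p.2, p.1)
  | 2, p => (-p.1, -p.2)
  | _, p => (p.2, -p.1)

/-- the P-pentomino of sites -/
def P0 : List (ℤ × ℤ) := [(0, 0), (1, 0), (0, 1), (1, 1), (-1, 1)]

/-- a placement: turn and shift -/
def pl (k : ℕ) (w : ℤ × ℤ) : List (ℤ × ℤ) :=
  P0.map fun p => ((rot k p).1 + w.1, (rot k p).2 + w.2)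

/-- residue of a site modulo the lattice of the supersites -/
def res (c : ℤ × ℤ) : ℕ := ((c.1 + 83 * c.2) % 265).toNat

/-- the lattice of the supersites -/
def al (z : ℤ × ℤ) : ℤ × ℤ := (16 * z.1 - 3 * z.2, 3 * z.1 + 16 * z.2)

/-- what happens at a residue class -/
inductive Kind where
  | core (n : ℕ) (c : ℤ × ℤ)
  | vp (n₁ : ℕ) (c₁ : ℤ × ℤ) (n₂ : ℕ) (c₂ : ℤ × ℤ) (d : ℤ)
  | hp (n₁ : ℕ) (c₁ : ℤ × ℤ) (n₂ : ℕ) (c₂ : ℤ × ℤ) (d : ℤ)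
  deriving DecidableEq

/-- codes of the placements of the nodes, for the bits (v, h) = 00, 01, 10, 11 -/
def codeTab : List ((ℕ × ℤ × ℤ) × (ℕ × ℤ × ℤ) × (ℕ × ℤ × ℤ) × (ℕ × ℤ × ℤ)) := [
  ((2, 0, 0), (3, 0, 0), (1, 0, 0), (0, 0, 0)),
  ((2, -1, 2), (3, -1, 2), (1, -1, 2), (0, -1, 2)),
  ((2, -2, 4), (3, -2, 4), (1, -2, 4), (0, -2, 4)),
  ((2, 2, 1), (3, 2, 1), (1, 2, 1), (0, 2, 1)),
  ((2, 1, 3), (3, 1, 3), (1, 1, 3), (0, 1, 3)),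
  ((2, 0, 5), (3, 0, 5), (1, 0, 5), (0, 0, 5)),
  ((2, 4, 2), (3, 4, 2), (1, 4, 2), (0, 4, 2)),
  ((2, 3, 4), (3, 3, 4), (1, 3, 4), (0, 3, 4)),
  ((2, 2, 6), (3, 2, 6), (1, 2, 6), (0, 2, 6)),
  ((2, 6, 3), (2, 7, 3), (2, 6, 3), (2, 7, 3)),
  ((0, 8, 2), (0, 9, 2), (0, 8, 2), (0, 9, 2)),
  ((2, 11, 3), (2, 12, 3), (2, 11, 3), (2, 12, 3)),
  ((0, 13, 2), (0, 14, 2), (0, 13, 2), (0, 14, 2)),
  ((2, 5, 5), (2, 6, 5), (2, 5, 5), (2, 6, 5)),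
  ((0, 7, 4), (0, 8, 4), (0, 7, 4), (0, 8, 4)),
  ((2, 10, 5), (2, 11, 5), (2, 10, 5), (2, 11, 5)),
  ((0, 12, 4), (0, 13, 4), (0, 12, 4), (0, 13, 4)),
  ((2, 4, 7), (2, 5, 7), (2, 4, 7), (2, 5, 7)),
  ((0, 6, 6), (0, 7, 6), (0, 6, 6), (0, 7, 6)),
  ((2, 9, 7), (2, 10, 7), (2, 9, 7), (2, 10, 7)),
  ((0, 11, 6), (0, 12, 6), (0, 11, 6), (0, 12, 6)),
  ((3, -3, 6), (3, -3, 6), (3, -3, 7), (3, -3, 7)),
  ((1, -2, 8), (1, -2, 8), (1, -2, 9), (1, -2, 9)),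
  ((3, -3, 11), (3, -3, 11), (3, -3, 12), (3, -3, 12)),
  ((1, -2, 13), (1, -2, 13), (1, -2, 14), (1, -2, 14)),
  ((3, -1, 7), (3, -1, 7), (3, -1, 8), (3, -1, 8)),
  ((1, 0, 9), (1, 0, 9), (1, 0, 10), (1, 0, 10)),
  ((3, -1, 12), (3, -1, 12), (3, -1, 13), (3, -1, 13)),
  ((1, 0, 14), (1, 0, 14), (1, 0, 15), (1, 0, 15)),
  ((3, 1, 8), (3, 1, 8), (3, 1, 9), (3, 1, 9)),
  ((1, 2, 10), (1, 2, 10), (1, 2, 11), (1, 2, 11)),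
  ((3, 1, 13), (3, 1, 13), (3, 1, 14), (3, 1, 14)),
  ((1, 2, 15), (1, 2, 15), (1, 2, 16), (1, 2, 16)),
  ((2, 4, 9), (2, 4, 9), (2, 4, 9), (2, 4, 9)),
  ((0, 6, 8), (0, 6, 8), (0, 6, 8), (0, 6, 8)),
  ((2, 4, 11), (2, 4, 11), (2, 4, 11), (2, 4, 11)),
  ((0, 6, 10), (0, 6, 10), (0, 6, 10), (0, 6, 10)),
  ((2, 4, 13), (2, 4, 13), (2, 4, 13), (2, 4, 13)),
  ((0, 6, 12), (0, 6, 12), (0, 6, 12), (0, 6, 12)),
  ((2, 4, 15), (2, 4, 15), (2, 4, 15), (2, 4, 15)),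
  ((0, 6, 14), (0, 6, 14), (0, 6, 14), (0, 6, 14)),
  ((2, 4, 17), (2, 4, 17), (2, 4, 17), (2, 4, 17)),
  ((0, 6, 16), (0, 6, 16), (0, 6, 16), (0, 6, 16)),
  ((2, 9, 9), (2, 9, 9), (2, 9, 9), (2, 9, 9)),
  ((0, 11, 8), (0, 11, 8), (0, 11, 8), (0, 11, 8)),
  ((2, 9, 11), (2, 9, 11), (2, 9, 11), (2, 9, 11)),
  ((0, 11, 10), (0, 11, 10), (0, 11, 10), (0, 11, 10)),
  ((2, 9, 13), (2, 9, 13), (2, 9, 13), (2, 9, 13)),
  ((0, 11, 12), (0, 11, 12), (0, 11, 12), (0, 11, 12)),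
  ((2, 9, 15), (2, 9, 15), (2, 9, 15), (2, 9, 15)),
  ((0, 11, 14), (0, 11, 14), (0, 11, 14), (0, 11, 14)),
  ((2, 9, 17), (2, 9, 17), (2, 9, 17), (2, 9, 17)),
  ((0, 11, 16), (0, 11, 16), (0, 11, 16), (0, 11, 16))]

/-- the placement of node `n` with bits `v`, `h` -/
def code (n : ℕ) (v h : Bool) : ℕ × ℤ × ℤ :=
  match codeTab.getD n ((0, 0, 0), (0, 0, 0), (0, 0, 0), (0, 0, 0)), v, h with
  | (a, _, _, _), false, false => a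
  | (_, b, _, _), false, true => b
  | (_, _, c, _), true, false => c
  | (_, _, _, d), true, true => d

/-- the sites of node `n` with bits `v`, `h` -/
def cl (n : ℕ) (v h : Bool) : List (ℤ × ℤ) := pl (code n v h).1 (code n v h).2

/-- the vertical line of a node -/
def eT : List ℕ := [0, 0, 0, 1, 1, 1, 2, 2, 2, 0, 0, 0, 0, 0, 0, 0, 0, 0, 0, 0, 0, 0, 0, 0, 0, 1, 1, 1, 1, 2, 2, 2, 2, 0, 0, 0, 0, 0, 0, 0, 0, 0, 0, 0, 0, 0, 0, 0, 0, 0, 0, 0, 0]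

/-- the horizontal line of a node -/
def fT : List ℕ := [0, 1, 2, 0, 1, 2, 0, 1, 2, 0, 0, 0, 0, 1, 1, 1, 1, 2, 2, 2, 2, 0, 0, 0, 0, 0, 0, 0, 0, 0, 0, 0, 0, 0, 0, 0, 0, 0, 0, 0, 0, 0, 0, 0, 0, 0, 0, 0, 0, 0, 0, 0, 0]

/-- the vertical line of a node -/
def eL (n : ℕ) : ℕ := eT.getD n 0

/-- the horizontal line of a node -/
def fL (n : ℕ) : ℕ := fT.getD n 0

/-- the table of the residue classes -/
def kindTab : List Kind := [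
  .core 0 (0, 0),
  .hp 0 (1, 0) 3 (1, 0) 0,
  .vp 28 (-1, 16) 3 (2, 0) 1,
  .vp 28 (0, 16) 3 (3, 0) 1,
  .core 32 (1, 16),
  .core 32 (2, 16),
  .core 41 (3, 16),
  .core 41 (4, 16),
  .core 41 (5, 16),
  .core 42 (6, 16),
  .core 42 (7, 16),
  .core 51 (8, 16),
  .core 51 (9, 16),
  .core 51 (10, 16),
  .core 52 (11, 16),
  .core 52 (12, 16),
  .core 24 (-3, 13),
  .vp 23 (-2, 13) 24 (-2, 13) 0,
  .vp 27 (-1, 13) 28 (-1, 13) 0,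
  .core 27 (0, 13),
  .core 31 (1, 13),
  .core 31 (2, 13),
  .core 37 (3, 13),
  .core 37 (4, 13),
  .core 38 (5, 13),
  .core 38 (6, 13),
  .core 38 (7, 13),
  .core 47 (8, 13),
  .core 47 (9, 13),
  .core 48 (10, 13),
  .core 48 (11, 13),
  .core 48 (12, 13),
  .vp 22 (-3, 10) 23 (-3, 10) 0,
  .vp 22 (-2, 10) 23 (-2, 10) 0,
  .core 26 (-1, 10),
  .core 26 (0, 10),
  .core 30 (1, 10),
  .vp 29 (2, 10) 30 (2, 10) 0,
  .core 35 (3, 10),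
  .core 35 (4, 10),
  .core 35 (5, 10),
  .core 36 (6, 10),
  .core 36 (7, 10),
  .core 45 (8, 10),
  .core 45 (9, 10),
  .core 45 (10, 10),
  .core 46 (11, 10),
  .core 46 (12, 10),
  .vp 21 (-3, 7) 22 (-3, 7) 0,
  .core 21 (-2, 7),
  .core 25 (-1, 7),
  .core 25 (0, 7),
  .vp 8 (1, 7) 29 (1, 7) 0,
  .vp 8 (2, 7) 29 (2, 7) 0,
  .hp 8 (3, 7) 17 (3, 7) 0,
  .core 17 (4, 7),
  .hp 17 (5, 7) 18 (5, 7) 0,
  .core 18 (6, 7),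
  .core 18 (7, 7),
  .hp 18 (8, 7) 19 (8, 7) 0,
  .core 19 (9, 7),
  .hp 19 (10, 7) 20 (10, 7) 0,
  .core 20 (11, 7),
  .core 20 (12, 7),
  .hp 20 (13, 7) 2 (-3, 4) 1,
  .core 2 (-2, 4),
  .hp 2 (-1, 4) 5 (-1, 4) 0,
  .vp 4 (0, 4) 5 (0, 4) 0,
  .vp 4 (1, 4) 5 (1, 4) 0,
  .hp 4 (2, 4) 7 (2, 4) 0,
  .core 7 (3, 4),
  .hp 7 (4, 4) 13 (4, 4) 0,
  .core 13 (5, 4),
  .core 13 (6, 4),
  .hp 13 (7, 4) 14 (7, 4) 0,
  .core 14 (8, 4),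
  .hp 14 (9, 4) 15 (9, 4) 0,
  .core 15 (10, 4),
  .core 15 (11, 4),
  .hp 15 (12, 4) 16 (12, 4) 0,
  .core 16 (13, 4),
  .hp 16 (14, 4) 1 (-2, 1) 1,
  .vp 0 (-1, 1) 1 (-1, 1) 0,
  .vp 0 (0, 1) 1 (0, 1) 0,
  .hp 0 (1, 1) 3 (1, 1) 0,
  .core 3 (2, 1),
  .hp 3 (3, 1) 6 (3, 1) 0,
  .vp 32 (1, 17) 6 (4, 1) 1,
  .vp 32 (2, 17) 6 (5, 1) 1,
  .core 41 (3, 17),
  .core 41 (4, 17),
  .core 42 (5, 17),
  .core 42 (6, 17),
  .core 42 (7, 17),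
  .core 51 (8, 17),
  .core 51 (9, 17),
  .core 52 (10, 17),
  .core 52 (11, 17),
  .core 52 (12, 17),
  .core 24 (-3, 14),
  .core 24 (-2, 14),
  .core 28 (-1, 14),
  .vp 27 (0, 14) 28 (0, 14) 0,
  .vp 31 (1, 14) 32 (1, 14) 0,
  .core 31 (2, 14),
  .core 39 (3, 14),
  .core 39 (4, 14),
  .core 39 (5, 14),
  .core 40 (6, 14),
  .core 40 (7, 14),
  .core 49 (8, 14),
  .core 49 (9, 14),
  .core 49 (10, 14),
  .core 50 (11, 14),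
  .core 50 (12, 14),
  .core 23 (-3, 11),
  .core 23 (-2, 11),
  .vp 26 (-1, 11) 27 (-1, 11) 0,
  .vp 26 (0, 11) 27 (0, 11) 0,
  .core 30 (1, 11),
  .core 30 (2, 11),
  .core 35 (3, 11),
  .core 35 (4, 11),
  .core 36 (5, 11),
  .core 36 (6, 11),
  .core 36 (7, 11),
  .core 45 (8, 11),
  .core 45 (9, 11),
  .core 46 (10, 11),
  .core 46 (11, 11),
  .core 46 (12, 11),
  .core 22 (-3, 8),
  .vp 21 (-2, 8) 22 (-2, 8) 0,
  .vp 25 (-1, 8) 26 (-1, 8) 0,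
  .core 25 (0, 8),
  .core 29 (1, 8),
  .core 29 (2, 8),
  .core 33 (3, 8),
  .core 33 (4, 8),
  .core 33 (5, 8),
  .core 34 (6, 8),
  .core 34 (7, 8),
  .core 43 (8, 8),
  .core 43 (9, 8),
  .core 43 (10, 8),
  .core 44 (11, 8),
  .core 44 (12, 8),
  .vp 2 (-3, 5) 21 (-3, 5) 0,
  .vp 2 (-2, 5) 21 (-2, 5) 0,
  .hp 2 (-1, 5) 5 (-1, 5) 0,
  .core 5 (0, 5),
  .hp 5 (1, 5) 8 (1, 5) 0,
  .vp 7 (2, 5) 8 (2, 5) 0,
  .vp 7 (3, 5) 8 (3, 5) 0,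
  .hp 7 (4, 5) 13 (4, 5) 0,
  .core 13 (5, 5),
  .hp 13 (6, 5) 14 (6, 5) 0,
  .core 14 (7, 5),
  .core 14 (8, 5),
  .hp 14 (9, 5) 15 (9, 5) 0,
  .core 15 (10, 5),
  .hp 15 (11, 5) 16 (11, 5) 0,
  .core 16 (12, 5),
  .core 16 (13, 5),
  .hp 16 (14, 5) 1 (-2, 2) 1,
  .core 1 (-1, 2),
  .hp 1 (0, 2) 4 (0, 2) 0,
  .vp 3 (1, 2) 4 (1, 2) 0,
  .vp 3 (2, 2) 4 (2, 2) 0,
  .hp 3 (3, 2) 6 (3, 2) 0,
  .core 6 (4, 2),
  .hp 6 (5, 2) 9 (5, 2) 0,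
  .core 9 (6, 2),
  .core 9 (7, 2),
  .hp 9 (8, 2) 10 (8, 2) 0,
  .core 10 (9, 2),
  .hp 10 (10, 2) 11 (10, 2) 0,
  .core 11 (11, 2),
  .core 11 (12, 2),
  .hp 11 (13, 2) 12 (13, 2) 0,
  .core 12 (14, 2),
  .hp 12 (15, 2) 0 (-1, -1) 1,
  .vp 24 (-3, 15) 0 (0, -1) 1,
  .vp 24 (-2, 15) 0 (1, -1) 1,
  .core 28 (-1, 15),
  .core 28 (0, 15),
  .core 32 (1, 15),
  .vp 31 (2, 15) 32 (2, 15) 0,
  .core 39 (3, 15),
  .core 39 (4, 15),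
  .core 40 (5, 15),
  .core 40 (6, 15),
  .core 40 (7, 15),
  .core 49 (8, 15),
  .core 49 (9, 15),
  .core 50 (10, 15),
  .core 50 (11, 15),
  .core 50 (12, 15),
  .vp 23 (-3, 12) 24 (-3, 12) 0,
  .core 23 (-2, 12),
  .core 27 (-1, 12),
  .core 27 (0, 12),
  .vp 30 (1, 12) 31 (1, 12) 0,
  .vp 30 (2, 12) 31 (2, 12) 0,
  .core 37 (3, 12),
  .core 37 (4, 12),
  .core 37 (5, 12),
  .core 38 (6, 12),
  .core 38 (7, 12),
  .core 47 (8, 12),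
  .core 47 (9, 12),
  .core 47 (10, 12),
  .core 48 (11, 12),
  .core 48 (12, 12),
  .core 22 (-3, 9),
  .core 22 (-2, 9),
  .core 26 (-1, 9),
  .vp 25 (0, 9) 26 (0, 9) 0,
  .vp 29 (1, 9) 30 (1, 9) 0,
  .core 29 (2, 9),
  .core 33 (3, 9),
  .core 33 (4, 9),
  .core 34 (5, 9),
  .core 34 (6, 9),
  .core 34 (7, 9),
  .core 43 (8, 9),
  .core 43 (9, 9),
  .core 44 (10, 9),
  .core 44 (11, 9),
  .core 44 (12, 9),
  .core 21 (-3, 6),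
  .core 21 (-2, 6),
  .vp 5 (-1, 6) 25 (-1, 6) 0,
  .vp 5 (0, 6) 25 (0, 6) 0,
  .hp 5 (1, 6) 8 (1, 6) 0,
  .core 8 (2, 6),
  .hp 8 (3, 6) 17 (3, 6) 0,
  .core 17 (4, 6),
  .core 17 (5, 6),
  .hp 17 (6, 6) 18 (6, 6) 0,
  .core 18 (7, 6),
  .hp 18 (8, 6) 19 (8, 6) 0,
  .core 19 (9, 6),
  .core 19 (10, 6),
  .hp 19 (11, 6) 20 (11, 6) 0,
  .core 20 (12, 6),
  .hp 20 (13, 6) 2 (-3, 3) 1,
  .vp 1 (-2, 3) 2 (-2, 3) 0,
  .vp 1 (-1, 3) 2 (-1, 3) 0,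
  .hp 1 (0, 3) 4 (0, 3) 0,
  .core 4 (1, 3),
  .hp 4 (2, 3) 7 (2, 3) 0,
  .vp 6 (3, 3) 7 (3, 3) 0,
  .vp 6 (4, 3) 7 (4, 3) 0,
  .hp 6 (5, 3) 9 (5, 3) 0,
  .core 9 (6, 3),
  .hp 9 (7, 3) 10 (7, 3) 0,
  .core 10 (8, 3),
  .core 10 (9, 3),
  .hp 10 (10, 3) 11 (10, 3) 0,
  .core 11 (11, 3),
  .hp 11 (12, 3) 12 (12, 3) 0,
  .core 12 (13, 3),
  .core 12 (14, 3),
  .hp 12 (15, 3) 0 (-1, 0) 1]

/-- what happens at the residue class `r` -/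
def kind (r : ℕ) : Kind := kindTab.getD r (.core 0 (0, 0))

/-- a core residue class of each node -/
def coreTab : List ℕ := [0, 165, 65, 85, 250, 150, 170, 70, 235, 172, 175, 177, 180, 72, 75, 77, 80, 55, 57, 60, 62, 49, 131, 115, 16, 50, 34, 19, 101, 135, 36, 20, 4, 137, 140, 38, 41, 22, 24, 105, 108, 6, 9, 142, 145, 43, 46, 27, 29, 110, 113, 11, 14]

/-- first check: the sites of the placements occur in the table -/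
def chkB : Bool :=
  (List.range 53).all fun n => [false, true].all fun v => [false, true].all fun h =>
    (cl n v h).all fun c =>
      match kind (res c) with
      | .core n' c' => n' == n && c' == c
      | .vp n₁ c₁ n₂ c₂ _ => (n₁ == n && c₁ == c && v) || (n₂ == n && c₂ == c && !v)
      | .hp n₁ c₁ n₂ c₂ _ => (n₁ == n && c₁ == c && h) || (n₂ == n && c₂ == c && !h)

/-- second check: the entries of the table occur in the placements -/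
def chkC : Bool :=
  (List.range 265).all fun r =>
      match kind r with
      | .core n c => decide (n < 53) && (res c == r) &&
          (cl n false false).contains c && (cl n false true).contains c &&
          (cl n true false).contains c && (cl n true true).contains c
      | .vp n₁ c₁ n₂ c₂ d => decide (n₁ < 53) && decide (n₂ < 53) && (res c₁ == r) &&
          (c₁ == (c₂.1 + (al (0, d)).1, c₂.2 + (al (0, d)).2)) && (eL n₁ == eL n₂) &&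
          (cl n₁ true false).contains c₁ && (cl n₁ true true).contains c₁ &&
          (cl n₂ false false).contains c₂ && (cl n₂ false true).contains c₂
      | .hp n₁ c₁ n₂ c₂ d => decide (n₁ < 53) && decide (n₂ < 53) && (res c₁ == r) &&
          (c₁ == (c₂.1 + (al (d, 0)).1, c₂.2 + (al (d, 0)).2)) && (fL n₁ == fL n₂) &&
          (cl n₁ false true).contains c₁ && (cl n₁ true true).contains c₁ &&
          (cl n₂ false false).contains c₂ && (cl n₂ true false).contains c₂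

/-- third check: every node has a core class -/
def chkE : Bool :=
  (List.range 53).all fun n =>
    match kind (coreTab.getD n 0) with
    | .core n' _ => n' == n
    | _ => false

theorem chkB_true : chkB = true := by decide +kernel
theorem chkC_true : chkC = true := by decide +kernel
theorem chkE_true : chkE = true := by decide +kernel

end Pool.Agent.H508T
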